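import Mathlib
import Pool.Agent.W604.Lem3

set_option autoImplicit false

/-!
# Collapse of the arc complex spectral sequence

The definitions are in `Pool.Agent.W604.Def1`, `Def2` and `Def3`.
-/

namespace Pool.Agent.Results.MP_e5080e_gt.RowCollapse

open Pool.Agent.W604.ArcSS

/-- For every bordered surface `F`, the spectral sequence of the arc complex collapses at `E¹` onto
its top horizontal row, except in dimension zero. -/
theorem result (F : Surf) (u v : ℤ) (hv : ¬ Top F v) (huv : u + v ≠ 0) :
    Subsingleton (E1 F u v) := collapse F u v hv huv

end Pool.Agent.Results.MP_e5080e_gt.RowCollapse
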